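import Pool.Agent.Helper97.Ku.GoalsG

set_option autoImplicit false

namespace Pool.Agent.Helper97.Ku.PkLOS2

universe u

open Pool.Agent.Helper97.Ku

theorem ev_cW {Ω : Type u} [LinearOrder Ω] {L : Type u} [CompleteBooleanAlgebra L]
    {G : Grd Ω} {U : UF L} (r : Rz G U) (i : ℕ → WN Ω L) (t : Tm) :
    t.ev r.MN (fun k => r.cW (i k)) = r.cW (t.ev (M1 G L) i) := by
  induction t with
  | v k => rfl
  | c0 => rfl
  | c1 => rfl
  | pr a b iha ihb =>
    show r.p (a.ev r.MN _) (b.ev r.MN _) = r.cW ((M1 G L).pr (a.ev (M1 G L) i) (b.ev (M1 G L) i))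
    rw [iha, ihb, r.p_cW]

/-- The value of a formula depends only on the function. -/
theorem los2 : G_WNA.{u} → G_FNF.{u} → G_FNE.{u} → G_LOS2.{u} := by
  intro hW hF hE Ω _ _ L _ G U r φ
  obtain ⟨hW1, hW2, _⟩ := hW Ω L G
  haveI : Nonempty Ω := ⟨G.c0⟩
  have hF1 := hF Ω L
  induction φ with
  | lt a b =>
    intro i e
    show NM.E (a.ev r.MN _).1 (b.ev r.MN _).1 ↔ _
    rw [ev_cW, ev_cW, r.cW_lt]
    rfl
  | eq a b =>
    intro i e
    show (a.ev r.MN _) = (b.ev r.MN _) ↔ _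
    rw [ev_cW, ev_cW, r.cW_eq]
    rfl
  | om a =>
    intro i e
    show NM.E (a.ev r.MN _).1 r.o ↔ _
    rw [ev_cW, r.cW_om]
    rfl
  | ap f a b =>
    intro i e
    show r.cF (e f) (a.ev r.MN _) = (b.ev r.MN _) ↔ _
    rw [ev_cW, ev_cW, r.cF_ap]
    rfl
  | neg a ih =>
    intro i e
    show ¬ (a.val r.MN _ _) ↔ U.mem (a.val (M1 G L) i e)ᶜ
    rw [ih, U.compl]
  | and a b iha ihb =>
    intro i e
    show (a.val r.MN _ _) ∧ (b.val r.MN _ _) ↔ U.mem (a.val (M1 G L) i e ⊓ b.val (M1 G L) i e)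
    rw [iha, ihb, U.inf_iff]
  | all k a ih =>
    intro i e
    show (⨅ x, a.val r.MN (Function.update (fun k => r.cW (i k)) k x) _) ↔
      U.mem (⨅ x, a.val (M1 G L) (Function.update i k x) e)
    rw [iInf_Prop_eq]
    have hup : ∀ x, (Function.update (fun k => r.cW (i k)) k (r.cW x)) =
        fun m => r.cW (Function.update i k x m) := by
      intro x
      funext m
      by_cases h : m = k
      · subst h; simp
      · simp [Function.update_of_ne h]
    constructor
    · intro h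
      obtain ⟨a0, ha0⟩ := (hW1 _ (hW2 a i e k)).2.1
      rw [← ha0]
      have h1 := h (r.cW a0)
      rw [hup, ih] at h1
      exact h1
    · intro h x
      obtain ⟨x0, rfl⟩ := r.cW_surj x
      rw [hup, ih]
      exact U.mono (iInf_le _ x0) h
  | allF k a ih =>
    intro i e
    show (⨅ x, a.val r.MN _ (Function.update (fun m => ⟨r.cF (e m), r.cF_rep (e m)⟩) k x)) ↔
      U.mem (⨅ x, a.val (M1 G L) i (Function.update e k x))
    rw [iInf_Prop_eq]
    have hup : ∀ x, (Function.update (fun m => (⟨r.cF (e m), r.cF_rep (e m)⟩ :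
        {f : El NM.E r.w → El NM.E r.w // Rep NM.E r.w r.w f})) k ⟨r.cF x, r.cF_rep x⟩) =
        fun m => ⟨r.cF (Function.update e k x m), r.cF_rep _⟩ := by
      intro x
      funext m
      by_cases h : m = k
      · subst h; simp
      · simp [Function.update_of_ne h]
    constructor
    · intro h
      obtain ⟨a0, ha0⟩ := (hF1 _ ((hE Ω L G a e k).1 i)).2
      rw [← ha0]
      have h1 := h ⟨r.cF a0, r.cF_rep a0⟩
      rw [hup, ih] at h1
      exact h1
    · rintro h ⟨x, hx⟩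
      obtain ⟨x0, rfl⟩ := r.cF_surj x hx
      rw [hup, ih]
      exact U.mono (iInf_le _ x0) h

end Pool.Agent.Helper97.Ku.PkLOS2
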